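import Mathlib
import Pool.Agent.Helper38.XF.Spec2

/-!
# XG, part ACL (for helper38's swarm)
-/

set_option autoImplicit false

namespace Pool.Agent.Helper72.XG.ACL

open Pool.Agent.Helper38.XF
open scoped IntermediateField.algebraAdjoinAdjoin

theorem evalOption {k L : Type} [Field k] [Field L] [Algebra k L] {σ : Type} (s : σ → L) (a' : L)
    (P : Polynomial (MvPolynomial σ k)) :
    MvPolynomial.aeval (fun o : Option σ => o.elim a' s)
      ((MvPolynomial.optionEquivLeft k σ).symm P) =
      (P.map (MvPolynomial.aeval s : MvPolynomial σ k →ₐ[k] L).toRingHom).eval a' := by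
  rw [MvPolynomial.optionEquivLeft_symm_apply]
  induction P using Polynomial.induction_on' with
  | add p q hp hq => rw [map_add, map_add, hp, hq, Polynomial.map_add, Polynomial.eval_add]
  | monomial n c =>
    rw [← Polynomial.C_mul_X_pow_eq_monomial]
    simp only [map_mul, map_pow, Polynomial.aevalTower_C, Polynomial.aevalTower_X,
      MvPolynomial.aeval_rename, MvPolynomial.aeval_X, Polynomial.map_mul, Polynomial.map_C,
      Polynomial.map_pow, Polynomial.map_X, Polynomial.eval_mul, Polynomial.eval_C,
      Polynomial.eval_pow, Polynomial.eval_X, Option.elim]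
    rfl

theorem main : St_ACL := by
  intro k L _ _ _ _ σ s a ha
  have h1 : IsAlgebraic (IntermediateField.adjoin k (Set.range s)) a := ha
  have h2 : IsAlgebraic (Algebra.adjoin k (Set.range s)) a :=
    (IsFractionRing.isAlgebraic_iff (Algebra.adjoin k (Set.range s))
      (IntermediateField.adjoin k (Set.range s)) L).2 h1
  obtain ⟨P, hP, hPa⟩ := h2
  have hsurj : ∀ c : Algebra.adjoin k (Set.range s), ∃ q : MvPolynomial σ k,
      MvPolynomial.aeval s q = (c : L) := by
    intro c
    have : (c : L) ∈ (MvPolynomial.aeval s : MvPolynomial σ k →ₐ[k] L).range := by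
      rw [← Algebra.adjoin_range_eq_range_aeval]; exact c.2
    exact this
  -- lift
  obtain ⟨P1, hP1⟩ : ∃ P1 : Polynomial (MvPolynomial σ k),
      P1.map (MvPolynomial.aeval s : MvPolynomial σ k →ₐ[k] L).toRingHom =
        P.map (algebraMap (Algebra.adjoin k (Set.range s)) L) := by
    clear hP hPa
    induction P using Polynomial.induction_on' with
    | add p q hp hq =>
      obtain ⟨p1, hp1⟩ := hp
      obtain ⟨q1, hq1⟩ := hq
      exact ⟨p1 + q1, by rw [Polynomial.map_add, hp1, hq1, Polynomial.map_add]⟩
    | monomial n c =>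
      obtain ⟨q, hq⟩ := hsurj c
      refine ⟨Polynomial.monomial n q, ?_⟩
      rw [Polynomial.map_monomial, Polynomial.map_monomial]
      exact congrArg (Polynomial.monomial n) hq
  refine ⟨(MvPolynomial.optionEquivLeft k σ).symm P1, ?_, ?_⟩
  · have hne : P.map (algebraMap (Algebra.adjoin k (Set.range s)) L) ≠ 0 := by
      rw [Ne, Polynomial.map_eq_zero_iff (FaithfulSMul.algebraMap_injective _ _)]
      exact hP
    by_contra hall
    push Not at hall
    apply hne
    apply Polynomial.funext
    intro r
    have := hall r
    rw [evalOption, hP1] at this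
    rw [this, Polynomial.eval_zero]
  · rw [evalOption, hP1]
    rw [Polynomial.eval_map_algebraMap]
    exact hPa

end Pool.Agent.Helper72.XG.ACL
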